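import Pool.Agent.Lib.P0d2d15.Exact

set_option autoImplicit false

namespace Pool.Agent.Results.MP_0d2d15_ag.SymbolicDepth

open MvPolynomial

/-- The `t`-th symbolic power `Q^(t)`: the intersection over the minimal primes `P` of `Q` of the
contractions to `R` of the extensions of `Q ^ t` to the localization `R_P`. -/
def symbolicPower {R : Type*} [CommRing R] (Q : Ideal R) (t : ℕ) : Ideal R :=
  ⨅ (P : PrimeSpectrum R) (_ : P.asIdeal ∈ Q.minimalPrimes),
    ((Q ^ t).map (algebraMap R (Localization.AtPrime P.asIdeal))).comap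
      (algebraMap R (Localization.AtPrime P.asIdeal))

/-- The depth of the module `M` with respect to the ideal `m`: the supremum (in `ℕ ∪ {∞}`) of the
lengths of the `M`-regular sequences with elements in `m`. -/
noncomputable def depth {R : Type*} [CommRing R] (m : Ideal R) (M : Type*) [AddCommGroup M]
    [Module R M] : ℕ∞ :=
  ⨆ (rs : List R) (_ : (∀ r ∈ rs, r ∈ m) ∧ RingTheory.Sequence.IsRegular M rs), (rs.length : ℕ∞)

/-- The polynomial ring in five variables `a, b, c, x, y` (in this order) over the field with two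
elements. -/
abbrev S : Type := MvPolynomial (Fin 5) (ZMod 2)

/-- The homogeneous maximal ideal `(a, b, c, x, y)`. -/
noncomputable def irrelevant : Ideal S := Ideal.span (Set.range X)

/-- The ideal `(x, y)`. -/
noncomputable def P : Ideal S := Ideal.span {X 3, X 4}

/-- With `d = b ^ 2 + a * c`, the ideal generated by the form
`b d x ^ 5 + a d y ^ 5 + (b d + a d + a ^ 2 b) x ^ 4 y`, by `x y (x + y) (x, y) ^ 2` and by
`(x, y) ^ 7`. -/
noncomputable def Q : Ideal S :=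
  Ideal.span {X 1 * (X 1 ^ 2 + X 0 * X 2) * X 3 ^ 5 + X 0 * (X 1 ^ 2 + X 0 * X 2) * X 4 ^ 5 +
    (X 1 * (X 1 ^ 2 + X 0 * X 2) + X 0 * (X 1 ^ 2 + X 0 * X 2) + X 0 ^ 2 * X 1) *
      (X 3 ^ 4 * X 4)} ⊔
  Ideal.span {X 3 * X 4 * (X 3 + X 4)} * P ^ 2 ⊔ P ^ 7

/-- A function on the positive integers is asymptotically periodic if `f (t + p) = f t` for some
`p ≥ 1` and all large `t`. -/
def AsymptoticallyPeriodic {α : Type*} (f : ℕ → α) : Prop :=
  ∃ p ≥ 1, ∃ t₀ ≥ 1, ∀ t ≥ t₀, f (t + p) = f t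

lemma symbolicPower_eq (t : ℕ) : symbolicPower Q t = Pool.Agent.P0d2d15.Xt t := by
  ext f
  rw [Pool.Agent.P0d2d15.mem_Xt_iff, symbolicPower]
  simp only [Submodule.mem_iInf, Ideal.mem_comap]
  have hloc : ∀ P' : PrimeSpectrum S,
      algebraMap S (Localization.AtPrime P'.asIdeal) f ∈
        (Q ^ t).map (algebraMap S (Localization.AtPrime P'.asIdeal)) ↔
      ∃ s, s ∉ P'.asIdeal ∧ s * f ∈ Q ^ t := by
    intro P'
    rw [IsLocalization.algebraMap_mem_map_algebraMap_iff P'.asIdeal.primeCompl]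
    rfl
  have hP : Pool.Agent.P0d2d15.P ∈ Q.minimalPrimes :=
    (Pool.Agent.P0d2d15.mem_minimalPrimes_iff _).2 rfl
  constructor
  · intro h
    exact (hloc ⟨Pool.Agent.P0d2d15.P, Pool.Agent.P0d2d15.P_prime⟩).1 (h _ hP)
  · rintro ⟨s, hs, h⟩ P' hP'
    rw [hloc]
    refine ⟨s, ?_, h⟩
    rw [(Pool.Agent.P0d2d15.mem_minimalPrimes_iff _).1 hP']
    exact hs

lemma mem_irrelevant (r : S) : r ∈ irrelevant ↔ constantCoeff r = 0 := by
  constructor
  · intro h
    have h1 : irrelevant ≤ Pool.Agent.P0d2d15.mm := by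
      rw [irrelevant, Ideal.span_le]
      rintro _ ⟨i, rfl⟩
      show constantCoeff (X i : S) = 0
      simp
    exact h1 h
  · intro h
    exact Pool.Agent.P0d2d15.mm_le irrelevant (fun i => Ideal.subset_span ⟨i, rfl⟩) h

lemma depth_eq (t k : ℕ) (h1 : k ∈ Pool.Agent.P0d2d15.lengths t)
    (h2 : ∀ m ∈ Pool.Agent.P0d2d15.lengths t, m ≤ k) :
    depth irrelevant (S ⧸ symbolicPower Q t) = k := by
  rw [symbolicPower_eq, depth]
  apply le_antisymm
  · refine iSup₂_le ?_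
    rintro rs ⟨hrs, hreg⟩
    exact_mod_cast h2 rs.length ⟨rs, rfl, fun r hr => (mem_irrelevant r).1 (hrs r hr), hreg⟩
  · obtain ⟨rs, rfl, hrs, hreg⟩ := h1
    exact le_iSup₂ (f := fun (rs : List S) (_ : (∀ r ∈ rs, r ∈ irrelevant) ∧
      RingTheory.Sequence.IsRegular (S ⧸ Pool.Agent.P0d2d15.Xt t) rs) => (rs.length : ℕ∞)) rs
      ⟨fun r hr => (mem_irrelevant r).2 (hrs r hr), hreg⟩

lemma depth_pow_two (e : ℕ) : depth irrelevant (S ⧸ symbolicPower Q (2 ^ e)) = 2 :=
  depth_eq _ 2 (Pool.Agent.P0d2d15.two_mem_lengths e)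
    (fun m hm => Pool.Agent.P0d2d15.lengths_pow_two_le e m hm)

lemma depth_not_pow (t : ℕ) (ht : 1 ≤ t) (h : ¬ ∃ e, t = 2 ^ e) :
    depth irrelevant (S ⧸ symbolicPower Q t) = 1 := by
  refine depth_eq _ 1 ?_ (fun m hm => Pool.Agent.P0d2d15.lengths_not_pow_le t ht
    (fun e he => h ⟨e, he⟩) m hm)
  obtain ⟨n, rfl⟩ : ∃ n, t = n + 1 := ⟨t - 1, by omega⟩
  exact Pool.Agent.P0d2d15.one_mem_lengths n

lemma Q_ne_bot : Q ≠ ⊥ := by
  intro h
  have h1 : (X 3 ^ 7 : S) ∈ Q :=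
    Ideal.mem_sup_right (Ideal.pow_mem_pow (Ideal.subset_span (by simp)) 7)
  rw [h, Ideal.mem_bot] at h1
  exact pow_ne_zero 7 (X_ne_zero 3) h1

lemma Q_ne_top : Q ≠ ⊤ := by
  intro h
  have h1 : Q ≤ Pool.Agent.P0d2d15.P := Pool.Agent.P0d2d15.Q_le_P
  rw [h, top_le_iff] at h1
  exact Pool.Agent.P0d2d15.P_prime.ne_top h1

open scoped Classical in
attribute [local instance] MvPolynomial.gradedAlgebra in
/-- The nonzero proper homogeneous ideal `Q` of `F_2[a, b, c, x, y]` has a symbolic depth function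
with value two at the powers of two and one elsewhere; it is not asymptotically periodic. -/
theorem result :
    Q ≠ ⊥ ∧ Q ≠ ⊤ ∧ Q.IsHomogeneous (homogeneousSubmodule (Fin 5) (ZMod 2)) ∧
    (∀ t ≥ 1, depth irrelevant (S ⧸ symbolicPower Q t) = if ∃ e, t = 2 ^ e then 2 else 1) ∧
    ¬ AsymptoticallyPeriodic (fun t => depth irrelevant (S ⧸ symbolicPower Q t)) := by
  refine ⟨Q_ne_bot, Q_ne_top, Pool.Agent.P0d2d15.Q_homogeneous, ?_, ?_⟩
  · intro t ht
    split_ifs with h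
    · obtain ⟨e, rfl⟩ := h
      exact depth_pow_two e
    · exact depth_not_pow t ht h
  · rintro ⟨p, hp, N, -, h⟩
    have hN : N ≤ 2 ^ (N + p) := (Nat.le_add_right N p).trans (Nat.lt_two_pow_self).le
    have hpp : p < 2 ^ (N + p) := lt_of_le_of_lt (Nat.le_add_left p N) (Nat.lt_two_pow_self)
    have h1 := h (2 ^ (N + p)) hN
    have h2 : ¬ ∃ e, 2 ^ (N + p) + p = 2 ^ e := by
      rintro ⟨e, he⟩
      have h3 : 2 ^ (N + p) < 2 ^ e := by omega
      have h4 : N + p < e := (Nat.pow_lt_pow_iff_right (by norm_num)).1 h3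
      have h5 : 2 ^ (N + p + 1) ≤ 2 ^ e := Nat.pow_le_pow_right (by norm_num) h4
      rw [pow_succ] at h5
      omega
    simp only at h1
    rw [depth_pow_two, depth_not_pow _ (by omega) h2] at h1
    exact absurd h1 (by decide)

end Pool.Agent.Results.MP_0d2d15_ag.SymbolicDepth
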